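import Mathlib
import Pool.Agent.N753.DR.Stm

/-!
# DR/LARGE, first part: number fields

The number of primes of bounded norm, the size of the norm of `evS d`, and the number of primes
`v` for which a type above `v` contains `evS d`.
-/

set_option autoImplicit false

namespace Pool.Agent.N530.DR

open NumberField IsDedekindDomain Module Polynomial Filter
open Pool.Agent.N753.DR

/-- the primes of bounded norm -/
lemma finite_primes (K : Type) [Field K] [NumberField K] (X : ℕ) :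
    {v : HeightOneSpectrum (𝓞 K) | Ideal.absNorm v.asIdeal ≤ X}.Finite := by
  have h := Ideal.finite_setOfPred_absNorm_le (S := 𝓞 K) X
  refine Set.Finite.of_finite_image (f := fun v : HeightOneSpectrum (𝓞 K) => v.asIdeal)
    (h.subset ?_) ?_
  · rintro _ ⟨v, hv, rfl⟩
    exact hv
  · intro v _ w _ hvw
    exact HeightOneSpectrum.ext hvw

lemma ncard_primes_le (K : Type) [Field K] [NumberField K] (X : ℕ) :
    {v : HeightOneSpectrum (𝓞 K) | Ideal.absNorm v.asIdeal ≤ X}.ncard ≤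
      {I : Ideal (𝓞 K) | Ideal.absNorm I ≤ X}.ncard := by
  refine Set.ncard_le_ncard_of_injOn (fun v : HeightOneSpectrum (𝓞 K) => v.asIdeal) ?_ ?_
    (Ideal.finite_setOfPred_absNorm_le (S := 𝓞 K) X)
  · intro v hv
    exact hv
  · intro v _ w _ hvw
    exact HeightOneSpectrum.ext hvw

lemma exists_primes_card (K : Type) [Field K] [NumberField K] : ∃ C : ℕ, ∀ X : ℕ, 1 ≤ X →
    {v : HeightOneSpectrum (𝓞 K) | Ideal.absNorm v.asIdeal ≤ X}.ncard ≤ C * X := by
  have h1 := NumberField.Ideal.tendsto_norm_le_div_atTop K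
  obtain ⟨M, hM⟩ := (h1.comp tendsto_natCast_atTop_atTop).bddAbove_range
  obtain ⟨C, hC⟩ := exists_nat_ge M
  refine ⟨C, fun X hX => (ncard_primes_le K X).trans ?_⟩
  have h2 := hM ⟨X, rfl⟩
  simp only [Function.comp] at h2
  have hX' : (0 : ℝ) < X := by exact_mod_cast hX
  rw [div_le_iff₀ hX'] at h2
  have h3 : (Nat.card {I : Ideal (𝓞 K) // (Ideal.absNorm I : ℝ) ≤ (X : ℝ)} : ℝ) =
      ({I : Ideal (𝓞 K) | Ideal.absNorm I ≤ X}.ncard : ℝ) := by
    rw [← Nat.card_coe_set_eq]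
    congr 1
    simp only [Nat.cast_le]
    rfl
  rw [h3] at h2
  have h4 : ({I : Ideal (𝓞 K) | Ideal.absNorm I ≤ X}.ncard : ℝ) ≤ (C * X : ℕ) := by
    push_cast
    exact h2.trans (mul_le_mul_of_nonneg_right hC hX'.le)
  exact_mod_cast h4

section

variable {K L : Type} [Field K] [NumberField K] [Field L] [NumberField L] [Algebra K L]

omit [NumberField K] [NumberField L] in
lemma evS_apply (a : ℕ) (θ : 𝓞 L) (r s : ℕ) (d : Fin s → 𝓞 K) :
    evS K a θ r s d = ∑ i : Fin s,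
      algebraMap (𝓞 K) (𝓞 L) (d i) * ((a : 𝓞 L) ^ (r - (i : ℕ)) * θ ^ (i : ℕ)) := rfl

omit [NumberField K] [NumberField L] in
lemma coe_evS (a : ℕ) (θ : 𝓞 L) (r s : ℕ) (d : Fin s → 𝓞 K) :
    ((evS K a θ r s d : 𝓞 L) : L) = ∑ i : Fin s,
      algebraMap K L (d i) * ((a : L) ^ (r - (i : ℕ)) * (θ : L) ^ (i : ℕ)) := by
  rw [evS_apply]
  show algebraMap (𝓞 L) L _ = _
  rw [map_sum]
  apply Finset.sum_congr rfl
  intro i _
  rw [map_mul, map_mul, map_pow, map_pow, map_natCast]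
  congr 1

lemma evS_ne (θ : 𝓞 L) (a r s : ℕ) (hθ : IntermediateField.adjoin K {(θ : L)} = ⊤) (ha : a ≠ 0)
    (hs : s ≤ finrank K L) (d : Fin s → 𝓞 K) (hd : d ≠ 0) : evS K a θ r s d ≠ 0 := by
  intro h0
  apply hd
  have hfin : FiniteDimensional K L := inferInstance
  have hdeg : (minpoly K (θ : L)).natDegree = finrank K L := by
    rw [← IntermediateField.adjoin.finrank (K := K) (x := (θ : L)) (Algebra.IsIntegral.isIntegral _),
      hθ, IntermediateField.finrank_top']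
  have hli := linearIndependent_pow (K := K) (θ : L)
  have hs' : s ≤ (minpoly K (θ : L)).natDegree := by rwa [hdeg]
  have hli2 : LinearIndependent K (fun i : Fin s => (θ : L) ^ (i : ℕ)) :=
    hli.comp (Fin.castLE hs') (Fin.castLE_injective hs')
  have h1 : ∑ i : Fin s, (algebraMap (𝓞 K) K (d i) * (a : K) ^ (r - (i : ℕ))) • (θ : L) ^ (i : ℕ) = 0 := by
    have h2 : ((evS K a θ r s d : 𝓞 L) : L) = 0 := by
      rw [h0]
      exact map_zero (algebraMap (𝓞 L) L)
    rw [coe_evS] at h2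
    rw [← h2]
    apply Finset.sum_congr rfl
    intro i _
    rw [Algebra.smul_def, map_mul, map_pow, map_natCast]
    ring
  rw [Fintype.linearIndependent_iff] at hli2
  have h3 := hli2 _ h1
  funext i
  have h4 := h3 i
  have h5 : (a : K) ^ (r - (i : ℕ)) ≠ 0 := pow_ne_zero _ (by exact_mod_cast ha)
  have h6 : algebraMap (𝓞 K) K (d i) = 0 := (mul_eq_zero.1 h4).resolve_right h5
  have := (FaithfulSMul.algebraMap_injective (𝓞 K) K)
  apply this
  rw [h6]
  simp

lemma emb_bound (θ : 𝓞 L) (a r s : ℕ) : ∃ C : ℝ, 1 ≤ C ∧ ∀ (d : Fin s → 𝓞 K) (T : ℝ), 1 ≤ T →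
    (∀ j, (sz (d j) : ℝ) ≤ T) → ∀ σ : L →ₐ[ℚ] ℂ, ‖σ (evS K a θ r s d : 𝓞 L)‖ ≤ C * T := by
  classical
  set A : (L →ₐ[ℚ] ℂ) → ℝ := fun σ => ∑ i : Fin s,
    (∑ l, ‖σ (algebraMap K L (RingOfIntegers.basis K l : 𝓞 K))‖) *
      ‖σ ((a : L) ^ (r - (i : ℕ)) * (θ : L) ^ (i : ℕ))‖ with hA
  have hA0 : ∀ σ, 0 ≤ A σ := fun σ => by positivity
  refine ⟨1 + ∑ σ, A σ, by linarith [Finset.sum_nonneg fun σ (_ : σ ∈ Finset.univ) => hA0 σ], ?_⟩
  intro d T hT hd σ
  have hle : A σ ≤ 1 + ∑ σ, A σ := by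
    have := Finset.single_le_sum (f := A) (fun σ _ => hA0 σ) (Finset.mem_univ σ)
    linarith
  refine le_trans ?_ (mul_le_mul_of_nonneg_right hle (by linarith))
  rw [coe_evS, map_sum, hA, Finset.sum_mul]
  refine (norm_sum_le _ _).trans (Finset.sum_le_sum fun i _ => ?_)
  rw [map_mul, norm_mul]
  have h1 : ‖σ (algebraMap K L (d i))‖ ≤
      T * ∑ l, ‖σ (algebraMap K L (RingOfIntegers.basis K l : 𝓞 K))‖ := by
    have h2 : (d i : K) = ∑ l, ((RingOfIntegers.basis K).repr (d i) l : K) *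
        (RingOfIntegers.basis K l : 𝓞 K) := by
      have h3 := (RingOfIntegers.basis K).sum_repr (d i)
      have h4 := congrArg (algebraMap (𝓞 K) K) h3
      rw [map_sum] at h4
      refine h4.symm.trans ?_
      apply Finset.sum_congr rfl
      intro l _
      rw [zsmul_eq_mul, map_mul, map_intCast]
    rw [h2, map_sum, map_sum, Finset.mul_sum]
    refine (norm_sum_le _ _).trans (Finset.sum_le_sum fun l _ => ?_)
    rw [map_mul, map_mul, norm_mul, map_intCast, map_intCast]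
    apply mul_le_mul_of_nonneg_right _ (norm_nonneg _)
    rw [Complex.norm_intCast]
    have h5 : (((RingOfIntegers.basis K).repr (d i) l).natAbs : ℝ) ≤ T := by
      refine le_trans ?_ (hd i)
      have : ((RingOfIntegers.basis K).repr (d i) l).natAbs ≤ sz (d i) :=
        Finset.le_sup (f := fun l => ((RingOfIntegers.basis K).repr (d i) l).natAbs)
          (Finset.mem_univ l)
      exact_mod_cast this
    rw [← Int.cast_abs, Int.abs_eq_natAbs, Int.cast_natCast]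
    exact h5
  calc ‖σ (algebraMap K L (d i))‖ * ‖σ ((a : L) ^ (r - (i : ℕ)) * (θ : L) ^ (i : ℕ))‖
      ≤ (T * ∑ l, ‖σ (algebraMap K L (RingOfIntegers.basis K l : 𝓞 K))‖) *
        ‖σ ((a : L) ^ (r - (i : ℕ)) * (θ : L) ^ (i : ℕ))‖ :=
        mul_le_mul_of_nonneg_right h1 (norm_nonneg _)
    _ = _ := by ring

lemma absNorm_le (z : 𝓞 L) (R : ℝ) (h : ∀ σ : L →ₐ[ℚ] ℂ, ‖σ (z : L)‖ ≤ R) :
    (Ideal.absNorm (Ideal.span {z}) : ℝ) ≤ R ^ finrank ℚ L := by
  rw [Ideal.absNorm_span_singleton]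
  have h1 : (((Algebra.norm ℤ z).natAbs : ℕ) : ℝ) = ‖(algebraMap ℚ ℂ) (Algebra.norm ℚ (z : L))‖ := by
    rw [← Algebra.coe_norm_int, eq_ratCast, Rat.cast_intCast, Complex.norm_intCast, ← Int.cast_abs,
      Int.abs_eq_natAbs]
    simp
  rw [h1, Algebra.norm_eq_prod_embeddings, norm_prod]
  calc ∏ σ : L →ₐ[ℚ] ℂ, ‖σ (z : L)‖ ≤ ∏ _σ : L →ₐ[ℚ] ℂ, R :=
        Finset.prod_le_prod (fun _ _ => norm_nonneg _) fun σ _ => h σ
    _ = R ^ finrank ℚ L := by
        rw [Finset.prod_const, Finset.card_univ, AlgHom.card]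

end

end Pool.Agent.N530.DR
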