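import Mathlib
import Pool.Agent.N753.DR.Stm
import Pool.Agent.N530.DR.Large1

/-!
# DR/LARGE, second part: a small vector lies in few of the lattices
-/

set_option autoImplicit false

namespace Pool.Agent.N530.DR

open NumberField IsDedekindDomain Module Polynomial Filter
open Pool.Agent.N753.DR

section

variable {K L : Type} [Field K] [NumberField K] [Field L] [NumberField L] [Algebra K L]

lemma coprime_typ_left {v : HeightOneSpectrum (𝓞 K)} {b c : Ideal (𝓞 L)} (hb : IsTyp v b)
    (h : ∀ w : HeightOneSpectrum (𝓞 L), w.asIdeal.LiesOver v.asIdeal → IsCoprime w.asIdeal c) :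
    IsCoprime b c := by
  obtain ⟨w, hw, rfl | ⟨w', hw', -, rfl⟩ | ⟨rfl, -⟩⟩ := hb
  · exact (h w hw).pow_left
  · exact (h w hw).mul_left (h w' hw')
  · exact h w hw

lemma coprime_typ {v v' : HeightOneSpectrum (𝓞 K)} (hv : v ≠ v') {b b' : Ideal (𝓞 L)}
    (hb : IsTyp v b) (hb' : IsTyp v' b') : IsCoprime b b' := by
  apply coprime_typ_left hb
  intro w hw
  apply IsCoprime.symm
  apply coprime_typ_left hb'
  intro u hu
  have := w.isMaximal
  have := u.isMaximal
  apply Ideal.isCoprime_of_isMaximal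
  intro he
  apply hv
  apply HeightOneSpectrum.ext
  rw [hw.over, hu.over, he]

lemma few (θ : 𝓞 L) (a r s : ℕ) (hθ : IntermediateField.adjoin K {(θ : L)} = ⊤) (ha : a ≠ 0)
    (hs : s ≤ finrank K L) {δ : ℝ} (hδ : 0 < δ) : ∃ D : ℕ, ∀ B : ℕ, 2 ≤ B →
    ∀ d : Fin s → 𝓞 K, d ≠ 0 → (∀ j, sz (d j) ≤ 2 * B) →
    ∀ Q : Finset (HeightOneSpectrum (𝓞 K)),
    (∀ v ∈ Q, (B : ℝ) ^ δ ≤ Ideal.absNorm v.asIdeal ∧ ∃ b : Ideal (𝓞 L), IsTyp v b ∧
      Ideal.absNorm v.asIdeal ^ 2 ≤ Ideal.absNorm b ∧ evS K a θ r s d ∈ b) → Q.card ≤ D := by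
  classical
  obtain ⟨C, hC1, hC⟩ := emb_bound (K := K) θ a r s
  have hl2 : 0 < Real.log 2 := Real.log_pos (by norm_num)
  obtain ⟨D, hD⟩ := exists_nat_ge (finrank ℚ L * (Real.log (C * 2) / Real.log 2 + 1) / (2 * δ))
  refine ⟨D, fun B hB d hd hdB Q hQ => ?_⟩
  have hB' : (2 : ℝ) ≤ B := by exact_mod_cast hB
  have hB0 : (0 : ℝ) < B := by linarith
  have hlB : Real.log 2 ≤ Real.log B := Real.log_le_log (by norm_num) hB'
  set z : 𝓞 L := evS K a θ r s d with hz
  have hz0 : z ≠ 0 := evS_ne θ a r s hθ ha hs d hd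
  choose! b hb1 hb2 hb3 using fun v hv => (hQ v hv).2
  have h1 : ∏ v ∈ Q, b v ∣ Ideal.span {z} := by
    apply Finset.prod_dvd_of_coprime
    · intro v hv v' hv' hne
      exact coprime_typ hne (hb1 v hv) (hb1 v' hv')
    · intro v hv
      rw [Ideal.dvd_iff_le, Ideal.span_singleton_le_iff_mem]
      exact hb3 v hv
  have hspan : Ideal.absNorm (Ideal.span {z}) ≠ 0 := by
    rw [Ne, Ideal.absNorm_eq_zero_iff, Ideal.span_singleton_eq_bot]
    exact hz0
  have h2 : ∏ v ∈ Q, Ideal.absNorm (b v) ≤ Ideal.absNorm (Ideal.span {z}) := by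
    rw [← map_prod]
    exact Nat.le_of_dvd (Nat.pos_of_ne_zero hspan) (map_dvd Ideal.absNorm h1)
  have h3 : (Ideal.absNorm (Ideal.span {z}) : ℝ) ≤ (C * (2 * B)) ^ finrank ℚ L := by
    apply absNorm_le
    intro σ
    exact hC d (2 * B) (by linarith) (fun j => by exact_mod_cast hdB j) σ
  have h4 : ((B : ℝ) ^ δ) ^ (2 * Q.card) ≤ ∏ v ∈ Q, (Ideal.absNorm (b v) : ℝ) := by
    rw [pow_mul, ← Finset.prod_const]
    apply Finset.prod_le_prod
    · intro v _
      positivity
    · intro v hv
      have h5 : ((B : ℝ) ^ δ) ^ 2 ≤ (Ideal.absNorm v.asIdeal : ℝ) ^ 2 :=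
        pow_le_pow_left₀ (by positivity) (hQ v hv).1 2
      refine h5.trans ?_
      exact_mod_cast hb2 v hv
  have h5 : ((B : ℝ) ^ δ) ^ (2 * Q.card) ≤ (C * (2 * B)) ^ finrank ℚ L := by
    refine h4.trans (le_trans ?_ h3)
    exact_mod_cast h2
  have h6 := Real.log_le_log (by positivity) h5
  rw [Real.log_pow, Real.log_pow, Real.log_rpow hB0] at h6
  have h7 : Real.log (C * (2 * B)) = Real.log (C * 2) + Real.log B := by
    rw [← mul_assoc, Real.log_mul (by positivity) (by positivity)]
  have h8 : 0 ≤ Real.log (C * 2) := Real.log_nonneg (by linarith)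
  have h9 : Real.log (C * (2 * B)) ≤ (Real.log (C * 2) / Real.log 2 + 1) * Real.log B := by
    rw [h7, add_mul, one_mul]
    have : Real.log (C * 2) = Real.log (C * 2) / Real.log 2 * Real.log 2 := by
      field_simp
    have h10 : Real.log (C * 2) / Real.log 2 * Real.log 2 ≤
        Real.log (C * 2) / Real.log 2 * Real.log B :=
      mul_le_mul_of_nonneg_left hlB (by positivity)
    linarith
  have h10 : (Q.card : ℝ) ≤ finrank ℚ L * (Real.log (C * 2) / Real.log 2 + 1) / (2 * δ) := by
    rw [le_div_iff₀ (by positivity)]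
    have h11 : (finrank ℚ L : ℝ) * Real.log (C * (2 * B)) ≤
        finrank ℚ L * ((Real.log (C * 2) / Real.log 2 + 1) * Real.log B) :=
      mul_le_mul_of_nonneg_left h9 (by positivity)
    have h12 : (Q.card : ℝ) * (2 * δ) * Real.log B ≤
        (finrank ℚ L * (Real.log (C * 2) / Real.log 2 + 1)) * Real.log B := by
      push_cast at h6
      linarith
    exact le_of_mul_le_mul_right h12 (by linarith)
  exact_mod_cast h10.trans hD

end

/-! ### coordinates -/

/-- integral coordinates -/
lemma exists_coord (K : Type) [Field K] [NumberField K] (s N : ℕ) (hN : finrank ℚ K * s = N) :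
    ∃ φ : (Fin N → ℤ) ≃+ (Fin s → 𝓞 K), ∀ (x : Fin N → ℤ) (T : ℕ),
      (∀ i, sz (φ x i) ≤ T) ↔ ∀ j, |x j| ≤ T := by
  classical
  have hcard : Fintype.card (Fin s × Module.Free.ChooseBasisIndex ℤ (𝓞 K)) = Fintype.card (Fin N) := by
    rw [Fintype.card_prod, Fintype.card_fin, Fintype.card_fin, ← Module.finrank_eq_card_chooseBasisIndex,
      RingOfIntegers.rank, mul_comm, hN]
  let e : Fin s × Module.Free.ChooseBasisIndex ℤ (𝓞 K) ≃ Fin N := Fintype.equivOfCardEq hcard
  let β := RingOfIntegers.basis K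
  let φ : (Fin N → ℤ) ≃+ (Fin s → 𝓞 K) :=
    { toFun := fun x i => β.equivFun.symm (fun l => x (e (i, l)))
      invFun := fun c j => β.equivFun (c (e.symm j).1) (e.symm j).2
      left_inv := by
        intro x
        funext j
        simp only [LinearEquiv.apply_symm_apply, Prod.mk.eta, Equiv.apply_symm_apply]
      right_inv := by
        intro c
        funext i
        apply β.equivFun.injective
        funext l
        simp only [LinearEquiv.apply_symm_apply, Equiv.symm_apply_apply]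
      map_add' := by
        intro x y
        funext i
        simp only [Pi.add_apply]
        rw [← map_add]
        rfl }
  refine ⟨φ, fun x T => ?_⟩
  have h1 : ∀ i, sz (φ x i) ≤ T ↔ ∀ l, |x (e (i, l))| ≤ T := by
    intro i
    unfold sz
    rw [Finset.sup_le_iff]
    constructor
    · intro h l
      have h2 := h l (Finset.mem_univ l)
      have h3 : β.repr (φ x i) l = x (e (i, l)) := by
        have : β.equivFun (β.equivFun.symm (fun l => x (e (i, l)))) l = x (e (i, l)) := by
          rw [LinearEquiv.apply_symm_apply]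
        exact this
      have h4 : (RingOfIntegers.basis K).repr (φ x i) l = x (e (i, l)) := h3
      rw [h4] at h2
      rw [Int.abs_eq_natAbs]
      exact_mod_cast h2
    · intro h l _
      have h3 : β.repr (φ x i) l = x (e (i, l)) := by
        have : β.equivFun (β.equivFun.symm (fun l => x (e (i, l)))) l = x (e (i, l)) := by
          rw [LinearEquiv.apply_symm_apply]
        exact this
      have h4 : (RingOfIntegers.basis K).repr (φ x i) l = x (e (i, l)) := h3
      rw [h4]
      have h2 := h l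
      rw [Int.abs_eq_natAbs] at h2
      exact_mod_cast h2
  constructor
  · intro h j
    have h2 := (h1 (e.symm j).1).1 (h _) (e.symm j).2
    simpa using h2
  · intro h i
    exact (h1 i).2 fun l => h _

/-- the integral box -/
lemma finite_box (N B : ℕ) : {x : Fin N → ℤ | ∀ j, |x j| ≤ B}.Finite := by
  have : {x : Fin N → ℤ | ∀ j, |x j| ≤ B} =
      ((Fintype.piFinset fun _ : Fin N => Finset.Icc (-(B : ℤ)) B : Finset (Fin N → ℤ)) :
        Set (Fin N → ℤ)) := by
    ext x
    simp only [Set.mem_ofPred_eq, Finset.mem_coe, Fintype.mem_piFinset, Finset.mem_Icc, abs_le]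
  rw [this]
  exact Finset.finite_toSet _

lemma ncard_box (N B : ℕ) : {x : Fin N → ℤ | ∀ j, |x j| ≤ B}.ncard = (2 * B + 1) ^ N := by
  have : {x : Fin N → ℤ | ∀ j, |x j| ≤ B} =
      ((Fintype.piFinset fun _ : Fin N => Finset.Icc (-(B : ℤ)) B : Finset (Fin N → ℤ)) :
        Set (Fin N → ℤ)) := by
    ext x
    simp only [Set.mem_ofPred_eq, Finset.mem_coe, Fintype.mem_piFinset, Finset.mem_Icc, abs_le]
  rw [this, Set.ncard_coe_finset, Fintype.card_piFinset]
  simp only [Int.card_Icc, Finset.prod_const, Finset.card_univ, Fintype.card_fin]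
  congr 1
  omega

lemma finite_Bx (K : Type) [Field K] [NumberField K] (m B : ℕ) : (Bx K m B).Finite := by
  obtain ⟨φ, hφ⟩ := exists_coord K m _ rfl
  have : Bx K m B = φ '' {x | ∀ j, |x j| ≤ B} := by
    ext c
    constructor
    · intro hc
      refine ⟨φ.symm c, (hφ _ _).1 ?_, φ.apply_symm_apply c⟩
      rw [φ.apply_symm_apply]
      exact hc
    · rintro ⟨x, hx, rfl⟩
      exact (hφ _ _).2 hx
  rw [this]
  exact (finite_box _ _).image _

lemma ncard_Bx (K : Type) [Field K] [NumberField K] (m B : ℕ) :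
    (Bx K m B).ncard ≤ (2 * B + 1) ^ (finrank ℚ K * m) := by
  obtain ⟨φ, hφ⟩ := exists_coord K m _ rfl
  have : Bx K m B = φ '' {x | ∀ j, |x j| ≤ B} := by
    ext c
    constructor
    · intro hc
      refine ⟨φ.symm c, (hφ _ _).1 ?_, φ.apply_symm_apply c⟩
      rw [φ.apply_symm_apply]
      exact hc
    · rintro ⟨x, hx, rfl⟩
      exact (hφ _ _).2 hx
  rw [this, ← ncard_box]
  exact Set.ncard_image_le (finite_box _ _)

end Pool.Agent.N530.DR
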